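import Mathlib
import Pool.Agent.H732_geproci.Final

/-!
# The nontrivial (4, 6)-geproci sets fall into infinitely many projective equivalence classes
-/

set_option autoImplicit false

open Pool.Agent.H732_geproci

namespace Pool.Agent.Results.MP_e29873_ag.InfiniteClasses

/-- There are infinitely many nontrivial `(4, 6)`-geproci sets in `ℙ³`, no two of which are
projectively equivalent. -/
theorem result : ∃ Z : ℕ → Set P3, (∀ n, IsNontrivialGeproci 4 6 (Z n)) ∧
    ∀ m n, m ≠ n → ¬ ProjEquiv (Z m) (Z n) :=
  exists_seq

end Pool.Agent.Results.MP_e29873_ag.InfiniteClasses
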